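import Pool.Agent.H262Z.WC.Main

set_option autoImplicit false

namespace Pool.Agent.Results.MP_153aba_co.AWaiterWinsAboveN

open Pool.Agent.H262Z.WC

/-- The threshold bias of the Waiter-Client odd cycle game on `K_n` is at least `(1 + ε) n` for
some fixed `ε > 0` and all large `n`; so it is not `(1 + o(1)) n`. -/
theorem result : ∃ ε : ℝ, 0 < ε ∧ ∀ᶠ n : ℕ in Filter.atTop, (1 + ε) * n ≤ (bwc n : ℝ) :=
  main

end Pool.Agent.Results.MP_153aba_co.AWaiterWinsAboveN
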